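import Pool.Agent.Helper42.RZ2.Basic
import Pool.Agent.Helper42.RZ2.St.R2
import Pool.Agent.Helper42.RZ2.St.R4a
import Pool.Agent.Helper42.RZ2.St.R9
import Pool.Agent.Helper42.RZ.St.S12
import Pool.Agent.Helper42.RZ.St.S13

/-! # RZ2-R10: the constant is at most the damped energy of every periodic configuration -/

set_option autoImplicit false

open MeasureTheory Set Metric Filter Topology
open scoped ENNReal

namespace Pool.Agent.Helper33.RZ2

open Pool.Agent.Helper42.RZ Pool.Agent.Helper42.RZ2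
open Pool.Agent.Helper81.RZ (pw pw_nonneg pw_hasSum pw_hasSum_one K_mul_integrable)

/-! ## Lattice vectors -/

theorem lv_eq_zero {a b : ℂ} (h : dt a b ≠ 0) {k : ℤ × ℤ} (hk : lv a b k = 0) : k = 0 := by
  unfold lv at hk
  unfold dt at h
  have hre := congrArg Complex.re hk
  have him := congrArg Complex.im hk
  simp only [Complex.add_re, Complex.mul_re, Complex.intCast_re, Complex.intCast_im, zero_mul,
    sub_zero, Complex.zero_re, Complex.add_im, Complex.mul_im, Complex.zero_im, add_zero] at hre him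
  have h1 : (k.1 : ℝ) * (a.re * b.im - a.im * b.re) = 0 := by
    linear_combination b.im * hre - b.re * him
  have h2 : (k.2 : ℝ) * (a.re * b.im - a.im * b.re) = 0 := by
    linear_combination a.re * him - a.im * hre
  rcases mul_eq_zero.1 h1 with h1 | h1
  · rcases mul_eq_zero.1 h2 with h2 | h2
    · have h3 : k.1 = 0 := by exact_mod_cast h1
      have h4 : k.2 = 0 := by exact_mod_cast h2
      exact Prod.ext h3 h4
    · exact absurd h2 h
  · exact absurd h1 h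

theorem lv_sub (a b : ℂ) (k l : ℤ × ℤ) : lv a b k - lv a b l = lv a b (k - l) := by
  unfold lv
  push_cast [Prod.fst_sub, Prod.snd_sub]
  ring

theorem lv_smul (t : ℝ) (a b : ℂ) (k : ℤ × ℤ) : lv (t * a) (t * b) k = t * lv a b k := by
  unfold lv
  ring

theorem dt_smul (t : ℝ) (a b : ℂ) : dt (t * a) (t * b) = t ^ 2 * dt a b := by
  unfold dt
  simp only [Complex.mul_re, Complex.mul_im, Complex.ofReal_re, Complex.ofReal_im]
  ring

theorem finite_ball {s w : ℝ} (h0 : 0 < s) (hw : 0 < w) {a b : ℂ} (h : dt a b ≠ 0) (x : ℂ)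
    (R : ℝ) : {k : ℤ × ℤ | ‖x + lv a b k‖ ≤ R}.Finite := by
  have hz : {k : ℤ × ℤ | x + lv a b k = 0}.Finite := by
    refine Set.Subsingleton.finite ?_
    intro k hk l hl
    have h1 : lv a b (k - l) = 0 := by
      rw [← lv_sub]
      have e1 : lv a b k = -x := by
        have := hk
        simp only [mem_ofPred_eq] at this
        linear_combination this
      have e2 : lv a b l = -x := by
        have := hl
        simp only [mem_ofPred_eq] at this
        linear_combination this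
      rw [e1, e2, sub_self]
    exact sub_eq_zero.1 (lv_eq_zero h h1)
  rcases le_or_gt R 0 with hR | hR
  · refine hz.subset ?_
    intro k hk
    simp only [mem_ofPred_eq] at hk ⊢
    exact norm_le_zero_iff.1 (hk.trans hR)
  · have hs := (summable_ph h0 hw h x).tendsto_cofinite_zero
    set c : ℝ := K s R * Real.exp (-w * R) with hc
    have hc0 : 0 < c := mul_pos (Real.rpow_pos_of_pos hR _) (Real.exp_pos _)
    have hev := hs.eventually (gt_mem_nhds hc0)
    rw [Filter.eventually_cofinite] at hev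
    refine (hz.union hev).subset ?_
    intro k hk
    simp only [mem_ofPred_eq] at hk
    by_cases h1 : x + lv a b k = 0
    · exact Or.inl h1
    · right
      simp only [mem_ofPred_eq, not_lt]
      have hpos : 0 < ‖x + lv a b k‖ := norm_pos_iff.2 h1
      unfold ph
      rw [hc]
      have e1 : K s R ≤ K s ‖x + lv a b k‖ :=
        Real.rpow_le_rpow_of_nonpos hpos hk (by linarith)
      have e2 : Real.exp (-w * R) ≤ Real.exp (-w * ‖x + lv a b k‖) := by
        refine Real.exp_le_exp.2 ?_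
        nlinarith
      exact mul_le_mul e1 e2 (Real.exp_pos _).le (Real.rpow_nonneg hpos.le _)

/-! ## Poisson mixture -/

theorem mixT {α : Type} {s : ℝ} (h2 : s < 2) (T : Finset α) (d : α → ℝ) {ρ A B β l : ℝ}
    (hρ0 : 0 ≤ ρ) (hρ : ρ ≤ 1) (hl : 0 ≤ l)
    (h : ∀ M : ℕ, β ≤ A * ∑ q ∈ T, K s (d q) * (1 - d q / 4) ^ M -
      B * ∫ r in (0 : ℝ)..ρ, K s r * (1 - r / 4) ^ M * (r / 2)) :
    β ≤ A * ∑ q ∈ T, K s (d q) * Real.exp (-l * d q) -
      B * ∫ r in (0 : ℝ)..ρ, K s r * Real.exp (-l * r) * (r / 2) := by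
  have hβ : HasSum (fun M : ℕ => pw l M * β) β := by
    simpa using (pw_hasSum_one l).mul_right β
  have hPS : HasSum (fun M : ℕ => pw l M * ∑ q ∈ T, K s (d q) * (1 - d q / 4) ^ M)
      (∑ q ∈ T, K s (d q) * Real.exp (-l * d q)) := by
    simp only [Finset.mul_sum]
    refine hasSum_sum fun p _ => ?_
    have := (pw_hasSum l (d p)).mul_left (K s (d p))
    refine (this.congr_fun ?_)
    intro M
    ring
  have hI : HasSum (fun M : ℕ => pw l M * ∫ r in (0 : ℝ)..ρ, K s r * (1 - r / 4) ^ M * (r / 2))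
      (∫ r in (0 : ℝ)..ρ, K s r * Real.exp (-l * r) * (r / 2)) := by
    have key := intervalIntegral.hasSum_integral_of_dominated_convergence (μ := volume)
      (a := 0) (b := ρ) (F := fun (M : ℕ) r => pw l M * (K s r * (1 - r / 4) ^ M * (r / 2)))
      (f := fun r => K s r * Real.exp (-l * r) * (r / 2))
      (fun M r => pw l M * |K s r * (r / 2)|) ?_ ?_ ?_ ?_ ?_
    · refine key.congr_fun ?_
      intro M
      rw [intervalIntegral.integral_const_mul]
    · intro M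
      refine Measurable.aestronglyMeasurable ?_
      unfold K
      fun_prop
    · intro M
      refine Eventually.of_forall fun r hr => ?_
      rw [uIoc_of_le hρ0] at hr
      have h1 : |(1 - r / 4) ^ M| ≤ 1 := by
        rw [abs_pow]
        refine pow_le_one₀ (abs_nonneg _) ?_
        rw [abs_le]
        constructor <;> linarith [hr.1, hr.2]
      rw [Real.norm_eq_abs, abs_mul, abs_of_nonneg (pw_nonneg hl M)]
      refine mul_le_mul_of_nonneg_left ?_ (pw_nonneg hl M)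
      have : K s r * (1 - r / 4) ^ M * (r / 2) = (K s r * (r / 2)) * (1 - r / 4) ^ M := by ring
      rw [this, abs_mul]
      exact mul_le_of_le_one_right (abs_nonneg _) h1
    · refine Eventually.of_forall fun r _ => ?_
      exact (pw_hasSum_one l).summable.mul_right _
    · have : (fun r => ∑' M : ℕ, pw l M * |K s r * (r / 2)|) = fun r => |K s r * (r / 2)| := by
        funext r
        rw [tsum_mul_right, (pw_hasSum_one l).tsum_eq, one_mul]
      rw [this]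
      exact (K_mul_integrable h2 hρ0).abs
    · refine Eventually.of_forall fun r _ => ?_
      have := (pw_hasSum l r).mul_left (K s r * (r / 2))
      have e : K s r * Real.exp (-l * r) * (r / 2) = K s r * (r / 2) * Real.exp (-l * r) := by ring
      simp only [e]
      refine this.congr_fun ?_
      intro M
      ring
  have hR : HasSum (fun M : ℕ => pw l M *
      (A * ∑ q ∈ T, K s (d q) * (1 - d q / 4) ^ M -
      B * ∫ r in (0 : ℝ)..ρ, K s r * (1 - r / 4) ^ M * (r / 2)))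
      (A * ∑ q ∈ T, K s (d q) * Real.exp (-l * d q) -
      B * ∫ r in (0 : ℝ)..ρ, K s r * Real.exp (-l * r) * (r / 2)) := by
    refine ((hPS.mul_left A).sub (hI.mul_left B)).congr_fun ?_
    intro M
    ring
  exact hasSum_le (fun M => mul_le_mul_of_nonneg_left (h M) (pw_nonneg hl M)) hβ hR

/-! ## The background -/

theorem integral_scale {s ρ l : ℝ} (hρ : 0 < ρ) (hl : 0 < l) :
    ∫ r in (0 : ℝ)..ρ, K s r * Real.exp (-l * r) * (r / 2) =
      l ^ (s - 2) * (1 / 2 * ∫ v in (0 : ℝ)..(l * ρ), Real.exp (-v) * v ^ (2 - s - 1)) := by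
  have h1 : ∫ r in (0 : ℝ)..ρ, K s r * Real.exp (-l * r) * (r / 2) =
      ∫ r in (0 : ℝ)..ρ, (l ^ (s - 2) * (1 / 2) * l) *
        (Real.exp (-(l * r)) * (l * r) ^ (2 - s - 1)) := by
    refine intervalIntegral.integral_congr_ae (Eventually.of_forall fun r hr => ?_)
    rw [uIoc_of_le hρ.le] at hr
    have hr0 : 0 < r := hr.1
    unfold K
    rw [Real.mul_rpow hl.le hr0.le, show (2 - s - 1 : ℝ) = -s + 1 by ring,
      Real.rpow_add_one hr0.ne', Real.rpow_add_one hl.ne', show (s - 2 : ℝ) = s + (-2) by ring,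
      Real.rpow_add hl, Real.rpow_neg hl.le s, Real.rpow_neg hl.le (2 : ℝ),
      show (l ^ (2 : ℝ)) = l ^ 2 by exact_mod_cast Real.rpow_natCast l 2]
    have hs : l ^ s ≠ 0 := (Real.rpow_pos_of_pos hl s).ne'
    have e : Real.exp (-l * r) = Real.exp (-(l * r)) := by ring_nf
    rw [e]
    field_simp
  rw [h1, intervalIntegral.integral_const_mul,
    intervalIntegral.integral_comp_mul_left (fun v => Real.exp (-v) * v ^ (2 - s - 1)) hl.ne',
    mul_zero, smul_eq_mul]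
  field_simp

theorem tendsto_J {s ρ : ℝ} (h2 : s < 2) (hρ : 0 < ρ) :
    Tendsto (fun l : ℝ => 1 / 2 * ∫ v in (0 : ℝ)..(l * ρ), Real.exp (-v) * v ^ (2 - s - 1)) atTop
      (𝓝 (1 / 2 * Real.Gamma (2 - s))) := by
  refine Tendsto.const_mul _ ?_
  rw [Real.Gamma_eq_integral (by linarith)]
  refine intervalIntegral_tendsto_integral_Ioi 0
    (Real.GammaIntegral_convergent (by linarith)) ?_
  exact tendsto_id.atTop_mul_const hρ

/-! ## The inequality for a fixed number of points -/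

theorem sum_T_le {s w : ℝ} (h0 : 0 < s) (hw : 0 < w) {m : ℕ} {a b : ℂ} (h : dt a b ≠ 0)
    (y : Fin m → ℂ) (T : Finset (Fin m × Fin m × (ℤ × ℤ))) :
    ∑ q ∈ T, ph s w ‖y q.1 - y q.2.1 + lv a b q.2.2‖ ≤
      ∑ i, ∑ j, LS s w a b (y i - y j) := by
  classical
  set T₃ : Finset (ℤ × ℤ) := T.image (fun q => q.2.2) with hT₃
  have hsub : T ⊆ (Finset.univ : Finset (Fin m)) ×ˢ ((Finset.univ : Finset (Fin m)) ×ˢ T₃) := by
    intro q hq
    simp only [Finset.mem_product, Finset.mem_univ, true_and]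
    exact Finset.mem_image_of_mem (fun q => q.2.2) hq
  refine (Finset.sum_le_sum_of_subset_of_nonneg hsub
    (fun q _ _ => ph_nonneg (norm_nonneg _))).trans ?_
  rw [Finset.sum_product]
  refine Finset.sum_le_sum fun i _ => ?_
  rw [Finset.sum_product]
  refine Finset.sum_le_sum fun j _ => ?_
  exact (summable_ph h0 hw h (y i - y j)).sum_le_tsum T₃ (fun k _ => ph_nonneg (norm_nonneg _))

theorem main_ineq {s : ℝ} (h0 : 0 < s) (h2 : s < 2) {η κ : ℝ} (hη : 0 < η) (hη1 : η < 1)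
    (hκ : 0 < κ) : ∃ ρ : ℝ, 0 < ρ ∧ ∀ {m : ℕ} {a b : ℂ} {y : Fin m → ℂ},
    Per m a b y → ∀ w : ℝ, 0 < w → ∀ N₁ : ℕ, 1 ≤ N₁ → ∀ β : ℝ,
    (∀ N' : ℕ, β ≤ minE s N' - 2 * N₁ * Cc s * N' + Cc s * (N₁ : ℝ) ^ 2) →
    β ≤ ((N₁ : ℝ) * (N₁ : ℝ) ^ (s / 2)) * ((4 * Real.pi) ^ (-(s / 2)) *
      ((1 - η) ^ (-s) * ((m : ℝ)⁻¹ * ∑ i, ∑ j, LS s w a b (y i - y j)) -
        (1 - κ) * ((1 - η) ^ (2 - s) * (4 * Real.pi * (w ^ (s - 2) *
          (1 / 2 * ∫ v in (0 : ℝ)..(w / ((1 - η) * Real.sqrt (4 * Real.pi / N₁)) * ρ),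
            Real.exp (-v) * v ^ (2 - s - 1))))))) := by
  obtain ⟨ε₀, hε, H⟩ := flat_M h0 h2 hη hη1 hκ
  refine ⟨min ε₀ 1, lt_min hε one_pos, ?_⟩
  intro m a b y hY w hw N₁ hN₁ β hβ
  set ρ : ℝ := min ε₀ 1 with hρdef
  have hρ : 0 < ρ := lt_min hε one_pos
  have hρ1 : ρ ≤ 1 := min_le_right _ _
  obtain ⟨hm, hdt, hdist⟩ := hY
  have hm' : (0 : ℝ) < m := by exact_mod_cast hm
  have hN₁' : (0 : ℝ) < N₁ := by exact_mod_cast hN₁
  have hdt0 : dt a b ≠ 0 := by
    intro h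
    rw [h, abs_zero] at hdt
    linarith
  have hη' : 0 < 1 - η := by linarith
  have hpi : 0 < 4 * Real.pi := by positivity
  set t : ℝ := Real.sqrt (4 * Real.pi / N₁) with ht
  have ht0 : 0 < t := Real.sqrt_pos.2 (by positivity)
  have ht2 : t ^ 2 = 4 * Real.pi / N₁ := Real.sq_sqrt (by positivity)
  -- the scaled configuration
  set y' : Fin m → ℂ := fun i => t * y i with hy'
  have hnorm : ∀ q : Fin m × Fin m × (ℤ × ℤ),
      ‖y' q.1 - y' q.2.1 + lv (t * a) (t * b) q.2.2‖ = t * ‖y q.1 - y q.2.1 + lv a b q.2.2‖ := by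
    intro q
    rw [lv_smul, hy']
    have : (t : ℂ) * y q.1 - t * y q.2.1 + t * lv a b q.2.2 =
        t * (y q.1 - y q.2.1 + lv a b q.2.2) := by ring
    rw [this, norm_mul, Complex.norm_real, Real.norm_of_nonneg ht0.le]
  have hdt' : |dt (t * a) (t * b)| * N₁ = 4 * Real.pi * m := by
    rw [dt_smul, abs_mul, hdt, abs_of_nonneg (by positivity), ht2]
    field_simp
  have hdist' : ∀ i j, ∀ k : ℤ × ℤ, y' i - y' j + lv (t * a) (t * b) k = 0 → i = j ∧ k = 0 := by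
    intro i j k hk
    have h1 := hnorm (i, j, k)
    simp only at h1
    rw [hk, norm_zero] at h1
    have h3 : ‖y i - y j + lv a b k‖ = 0 := by
      rcases mul_eq_zero.1 h1.symm with h | h
      · exact absurd h ht0.ne'
      · exact h
    have h4 := norm_eq_zero.1 h3
    have h5 := hdist i j k h4
    refine ⟨h5, ?_⟩
    rw [h5, sub_self, zero_add] at h4
    exact lv_eq_zero hdt0 h4
  -- the finite set
  have hfin : {q : Fin m × Fin m × (ℤ × ℤ) |
      (1 - η) * ‖y' q.1 - y' q.2.1 + lv (t * a) (t * b) q.2.2‖ ≤ 2}.Finite := by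
    have hR : ∀ i j : Fin m, {k : ℤ × ℤ | ‖y i - y j + lv a b k‖ ≤ 2 / ((1 - η) * t)}.Finite :=
      fun i j => finite_ball h0 hw hdt0 _ _
    have hU : (⋃ i : Fin m, ⋃ j : Fin m, (fun k : ℤ × ℤ => (i, j, k)) ''
        {k : ℤ × ℤ | ‖y i - y j + lv a b k‖ ≤ 2 / ((1 - η) * t)}).Finite :=
      Set.finite_iUnion fun i => Set.finite_iUnion fun j => (hR i j).image _
    refine hU.subset ?_
    intro q hq
    have hq' : (1 - η) * ‖y' q.1 - y' q.2.1 + lv (t * a) (t * b) q.2.2‖ ≤ 2 := hq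
    rw [hnorm] at hq'
    rw [Set.mem_iUnion]
    refine ⟨q.1, ?_⟩
    rw [Set.mem_iUnion]
    refine ⟨q.2.1, q.2.2, ?_, rfl⟩
    show ‖y q.1 - y q.2.1 + lv a b q.2.2‖ ≤ 2 / ((1 - η) * t)
    rw [le_div_iff₀ (by positivity)]
    linarith
  set T : Finset (Fin m × Fin m × (ℤ × ℤ)) := hfin.toFinset with hT
  have hTmem : ∀ q, q ∈ T ↔
      (1 - η) * ‖y' q.1 - y' q.2.1 + lv (t * a) (t * b) q.2.2‖ ≤ 2 := fun q => by
    rw [hT, Set.Finite.mem_toFinset]
    exact Iff.rfl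
  have hM := H ρ hρ (min_le_left _ _) m (t * a) (t * b) y' N₁ hm hN₁ hdt' hdist' T hTmem
  set l : ℝ := w / ((1 - η) * t) with hl
  have hl0 : 0 < l := by positivity
  have hmix := mixT (s := s) h2 T
    (fun q => (1 - η) * ‖y' q.1 - y' q.2.1 + lv (t * a) (t * b) q.2.2‖) (ρ := ρ)
    (A := (N₁ : ℝ) / m) (B := (N₁ : ℝ) ^ 2 * (1 - κ)) (β := β) (l := l) hρ.le hρ1 hl0.le
    (fun M => by
      have := hM M β hβ
      rwa [← mul_assoc ((N₁ : ℝ) ^ 2)] at this)
  rw [integral_scale hρ hl0] at hmix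
  -- powers of `t`
  set P : ℝ := (4 * Real.pi) ^ (-(s / 2)) with hP
  set Q : ℝ := (N₁ : ℝ) ^ (s / 2) with hQ
  have hP0 : 0 < P := Real.rpow_pos_of_pos hpi _
  have hQ0 : 0 < Q := Real.rpow_pos_of_pos hN₁' _
  have hts : t ^ (-s) = P * Q := by
    have e1 : t ^ (-s) = (t ^ 2) ^ (-(s / 2)) := by
      rw [← Real.rpow_natCast t 2, ← Real.rpow_mul ht0.le]
      congr 1
      push_cast
      ring
    rw [e1, ht2, Real.div_rpow hpi.le hN₁'.le, ← hP, Real.rpow_neg hN₁'.le, ← hQ]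
    field_simp
  have hts2 : t ^ (2 - s) = 4 * Real.pi / N₁ * (P * Q) := by
    rw [show (2 - s : ℝ) = 2 + -s by ring, Real.rpow_add ht0, hts, ← ht2]
    congr 1
    exact_mod_cast Real.rpow_natCast t 2
  -- the sum
  have hsum : ∑ q ∈ T, K s ((1 - η) * ‖y' q.1 - y' q.2.1 + lv (t * a) (t * b) q.2.2‖) *
      Real.exp (-l * ((1 - η) * ‖y' q.1 - y' q.2.1 + lv (t * a) (t * b) q.2.2‖)) ≤
      (1 - η) ^ (-s) * (P * Q) * ∑ i, ∑ j, LS s w a b (y i - y j) := by
    have e : ∀ q ∈ T, K s ((1 - η) * ‖y' q.1 - y' q.2.1 + lv (t * a) (t * b) q.2.2‖) *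
        Real.exp (-l * ((1 - η) * ‖y' q.1 - y' q.2.1 + lv (t * a) (t * b) q.2.2‖)) =
        (1 - η) ^ (-s) * (P * Q) * ph s w ‖y q.1 - y q.2.1 + lv a b q.2.2‖ := by
      intro q _
      rw [hnorm]
      unfold ph K
      rw [Real.mul_rpow hη'.le (by positivity), Real.mul_rpow ht0.le (norm_nonneg _), hts]
      have e2 : -l * ((1 - η) * (t * ‖y q.1 - y q.2.1 + lv a b q.2.2‖)) =
          -w * ‖y q.1 - y q.2.1 + lv a b q.2.2‖ := by
        rw [hl]
        field_simp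
      rw [e2]
      ring
    rw [Finset.sum_congr rfl e, ← Finset.mul_sum]
    refine mul_le_mul_of_nonneg_left (sum_T_le h0 hw hdt0 y T) ?_
    have := Real.rpow_pos_of_pos hη' (-s)
    positivity
  have hls : l ^ (s - 2) = w ^ (s - 2) * ((1 - η) ^ (2 - s) * (4 * Real.pi / N₁ * (P * Q))) := by
    rw [hl, Real.div_rpow hw.le (by positivity), Real.mul_rpow hη'.le ht0.le, ← hts2,
      show (s - 2 : ℝ) = -(2 - s) by ring, Real.rpow_neg hη'.le, Real.rpow_neg ht0.le,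
      Real.rpow_neg hw.le]
    have h3 : (1 - η) ^ (2 - s) ≠ 0 := (Real.rpow_pos_of_pos hη' _).ne'
    have h4 : t ^ (2 - s) ≠ 0 := (Real.rpow_pos_of_pos ht0 _).ne'
    field_simp
  rw [hls] at hmix
  set J : ℝ := 1 / 2 * ∫ v in (0 : ℝ)..(l * ρ), Real.exp (-v) * v ^ (2 - s - 1) with hJ
  set S : ℝ := ∑ i, ∑ j, LS s w a b (y i - y j) with hS
  have hfinal := hmix.trans (sub_le_sub_right (mul_le_mul_of_nonneg_left hsum
    (by positivity : (0 : ℝ) ≤ (N₁ : ℝ) / m)) _)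
  refine hfinal.trans (le_of_eq ?_)
  field_simp

/-! ## The limit of many points -/

theorem limit_ineq {s : ℝ} (h0 : 0 < s) (h2 : s < 2) {c : ℝ}
    (hc : Tendsto (fun N : ℕ => (minE s N - Cc s * (N : ℝ) ^ 2) / (N : ℝ) ^ (1 + s / 2)) atTop
      (𝓝 c)) {m : ℕ} {a b : ℂ} {y : Fin m → ℂ} (hY : Per m a b y) {w : ℝ} (hw : 0 < w)
    {ε : ℝ} (hε : 0 < ε) (hε1 : ε < 1 / 4) :
    (4 * Real.pi) ^ (s / 2) * (((1 + ε) / (1 - 2 * ε)) ^ 4 * (c * (1 - ε) ^ (1 + s / 2))) ≤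
      (1 - ε) ^ (-s) * ((m : ℝ)⁻¹ * ∑ i, ∑ j, LS s w a b (y i - y j)) -
        (1 - ε) * ((1 - ε) ^ (2 - s) * (4 * Real.pi * (w ^ (s - 2) *
          (1 / 2 * Real.Gamma (2 - s))))) := by
  obtain ⟨ρ, hρ, H⟩ := main_ineq h0 h2 hε (by linarith : ε < 1) hε
  obtain ⟨N₂, hN₂⟩ := extraction h0 h2 hε hε1
  set p : ℝ := 1 + s / 2 with hp
  set q : ℝ := (1 + ε) / (1 - 2 * ε) with hq
  have hpi : 0 < 4 * Real.pi := by positivity
  have h1ε : 0 < 1 - ε := by linarith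
  -- the number of points
  set N : ℕ → ℕ := fun k => ⌊(1 - ε) * (k : ℝ)⌋₊ with hN
  have hNk : Tendsto (fun k : ℕ => (N k : ℝ) / k) atTop (𝓝 (1 - ε)) :=
    (tendsto_nat_floor_mul_div_atTop h1ε.le).comp tendsto_natCast_atTop_atTop
  have hNtop : Tendsto N atTop atTop := by
    refine tendsto_nat_floor_atTop.comp ?_
    exact tendsto_natCast_atTop_atTop.const_mul_atTop h1ε
  have hf : Tendsto (fun k : ℕ => (4 * Real.pi) ^ (s / 2) * (q ^ 4 *
      ((minE s (N k) - Cc s * (N k : ℝ) ^ 2) / (N k : ℝ) ^ p * ((N k : ℝ) / k) ^ p))) atTop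
      (𝓝 ((4 * Real.pi) ^ (s / 2) * (q ^ 4 * (c * (1 - ε) ^ p)))) := by
    refine Tendsto.const_mul _ (Tendsto.const_mul _ ?_)
    exact (hc.comp hNtop).mul (hNk.rpow_const (Or.inl h1ε.ne'))
  have hl : Tendsto (fun k : ℕ => w / ((1 - ε) * Real.sqrt (4 * Real.pi / (k : ℝ)))) atTop
      atTop := by
    have e : ∀ k : ℕ, w / ((1 - ε) * Real.sqrt (4 * Real.pi / (k : ℝ))) =
        (w / ((1 - ε) * Real.sqrt (4 * Real.pi))) * Real.sqrt k := by
      intro k
      rw [Real.sqrt_div hpi.le]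
      rcases Nat.eq_zero_or_pos k with hk | hk
      · rw [hk]
        simp
      · have hk' : (0 : ℝ) < k := by exact_mod_cast hk
        have h5 : Real.sqrt k ≠ 0 := (Real.sqrt_pos.2 hk').ne'
        have h6 : Real.sqrt (4 * Real.pi) ≠ 0 := (Real.sqrt_pos.2 hpi).ne'
        field_simp
    simp only [e]
    have h7 : 0 < w / ((1 - ε) * Real.sqrt (4 * Real.pi)) := by
      have := Real.sqrt_pos.2 hpi
      positivity
    refine Tendsto.const_mul_atTop h7 ?_
    exact Real.tendsto_sqrt_atTop.comp tendsto_natCast_atTop_atTop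
  have hg : Tendsto (fun k : ℕ =>
      (1 - ε) ^ (-s) * ((m : ℝ)⁻¹ * ∑ i, ∑ j, LS s w a b (y i - y j)) -
        (1 - ε) * ((1 - ε) ^ (2 - s) * (4 * Real.pi * (w ^ (s - 2) *
          (1 / 2 * ∫ v in (0 : ℝ)..(w / ((1 - ε) * Real.sqrt (4 * Real.pi / (k : ℝ))) * ρ),
            Real.exp (-v) * v ^ (2 - s - 1)))))) atTop
      (𝓝 ((1 - ε) ^ (-s) * ((m : ℝ)⁻¹ * ∑ i, ∑ j, LS s w a b (y i - y j)) -
        (1 - ε) * ((1 - ε) ^ (2 - s) * (4 * Real.pi * (w ^ (s - 2) *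
          (1 / 2 * Real.Gamma (2 - s))))))) := by
    refine Tendsto.const_sub _ (Tendsto.const_mul _ (Tendsto.const_mul _ (Tendsto.const_mul _
      (Tendsto.const_mul _ ?_))))
    exact (tendsto_J h2 hρ).comp hl
  refine le_of_tendsto_of_tendsto hf hg ?_
  have hev1 : ∀ᶠ k : ℕ in atTop, 1 ≤ N k := hNtop.eventually_ge_atTop 1
  have hev2 : ∀ᶠ k : ℕ in atTop, (1 - 2 * ε) < (N k : ℝ) / k :=
    hNk.eventually (lt_mem_nhds (by linarith))
  filter_upwards [eventually_ge_atTop (max N₂ 1), hev1, hev2] with k hk hk1 hk2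
  have hkN₂ : N₂ ≤ k := (le_max_left _ _).trans hk
  have hk0 : 1 ≤ k := (le_max_right _ _).trans hk
  have hk' : (0 : ℝ) < k := by exact_mod_cast hk0
  have hNk' : (0 : ℝ) < (N k : ℝ) := by exact_mod_cast hk1
  have hlow : (1 - 2 * ε) * (k : ℝ) ≤ (N k : ℝ) := by
    rw [lt_div_iff₀ hk'] at hk2
    exact hk2.le
  have hup : (N k : ℝ) ≤ (1 - ε) * k := Nat.floor_le (by positivity)
  have hβ := H hY w hw k hk0 (q ^ 4 * (minE s (N k) - Cc s * (N k : ℝ) ^ 2))
    (fun N' => hN₂ k hkN₂ (N k) hlow hup N')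
  set X : ℝ := (1 - ε) ^ (-s) * ((m : ℝ)⁻¹ * ∑ i, ∑ j, LS s w a b (y i - y j)) -
        (1 - ε) * ((1 - ε) ^ (2 - s) * (4 * Real.pi * (w ^ (s - 2) *
          (1 / 2 * ∫ v in (0 : ℝ)..(w / ((1 - ε) * Real.sqrt (4 * Real.pi / (k : ℝ))) * ρ),
            Real.exp (-v) * v ^ (2 - s - 1))))) with hX
  have hkp : (k : ℝ) * (k : ℝ) ^ (s / 2) = (k : ℝ) ^ p := by
    rw [hp, Real.rpow_add hk', Real.rpow_one]
  have hkp0 : 0 < (k : ℝ) ^ p := Real.rpow_pos_of_pos hk' _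
  have hNp0 : 0 < (N k : ℝ) ^ p := Real.rpow_pos_of_pos hNk' _
  have hPP : (4 * Real.pi) ^ (s / 2) * (4 * Real.pi) ^ (-(s / 2)) = 1 := by
    rw [← Real.rpow_add hpi, add_neg_cancel, Real.rpow_zero]
  have hP0 : 0 < (4 * Real.pi) ^ (s / 2) := Real.rpow_pos_of_pos hpi _
  rw [hkp] at hβ
  have e1 : (4 * Real.pi) ^ (s / 2) * (q ^ 4 *
      ((minE s (N k) - Cc s * (N k : ℝ) ^ 2) / (N k : ℝ) ^ p * ((N k : ℝ) / k) ^ p)) =
      (4 * Real.pi) ^ (s / 2) * (q ^ 4 * (minE s (N k) - Cc s * (N k : ℝ) ^ 2)) / (k : ℝ) ^ p := by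
    rw [Real.div_rpow hNk'.le hk'.le]
    field_simp
  rw [e1, div_le_iff₀ hkp0]
  calc (4 * Real.pi) ^ (s / 2) * (q ^ 4 * (minE s (N k) - Cc s * (N k : ℝ) ^ 2)) ≤
      (4 * Real.pi) ^ (s / 2) * ((k : ℝ) ^ p * ((4 * Real.pi) ^ (-(s / 2)) * X)) :=
        mul_le_mul_of_nonneg_left hβ hP0.le
    _ = ((4 * Real.pi) ^ (s / 2) * (4 * Real.pi) ^ (-(s / 2))) * (X * (k : ℝ) ^ p) := by ring
    _ = X * (k : ℝ) ^ p := by rw [hPP, one_mul]

/-! ## Conclusion -/

theorem upper_periodic {s : ℝ} (h0 : 0 < s) (h2 : s < 2) {c : ℝ}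
    (hc : Tendsto (fun N : ℕ => (minE s N - Cc s * (N : ℝ) ^ 2) / (N : ℝ) ^ (1 + s / 2)) atTop
      (𝓝 c)) {m : ℕ} {a b : ℂ} {y : Fin m → ℂ} (hY : Per m a b y) {w : ℝ} (hw : 0 < w) :
    (4 * Real.pi) ^ (s / 2) * c ≤ AS s w a b y := by
  set X : ℝ := (m : ℝ)⁻¹ * ∑ i, ∑ j, LS s w a b (y i - y j) with hX
  set F : ℝ → ℝ := fun ε => (4 * Real.pi) ^ (s / 2) *
    (((1 + ε) / (1 - 2 * ε)) ^ 4 * (c * (1 - ε) ^ (1 + s / 2))) with hF
  set G : ℝ → ℝ := fun ε => (1 - ε) ^ (-s) * X - (1 - ε) * ((1 - ε) ^ (2 - s) *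
    (4 * Real.pi * (w ^ (s - 2) * (1 / 2 * Real.Gamma (2 - s))))) with hG
  have hsub : ContinuousAt (fun ε : ℝ => 1 - ε) 0 := by fun_prop
  have hr : ∀ e : ℝ, ContinuousAt (fun ε : ℝ => (1 - ε) ^ e) 0 := fun e =>
    hsub.rpow_const (Or.inl (by norm_num))
  have hFc : ContinuousAt F 0 := by
    refine ContinuousAt.mul continuousAt_const (ContinuousAt.mul ?_
      (ContinuousAt.mul continuousAt_const (hr _)))
    refine ContinuousAt.pow (ContinuousAt.div (by fun_prop) (by fun_prop) (by norm_num)) 4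
  have hGc : ContinuousAt G 0 := by
    refine ContinuousAt.sub (ContinuousAt.mul (hr _) continuousAt_const) ?_
    exact ContinuousAt.mul hsub (ContinuousAt.mul (hr _) continuousAt_const)
  have hF0 : Tendsto F (𝓝[>] 0) (𝓝 (F 0)) := hFc.tendsto.mono_left nhdsWithin_le_nhds
  have hG0 : Tendsto G (𝓝[>] 0) (𝓝 (G 0)) := hGc.tendsto.mono_left nhdsWithin_le_nhds
  have hle : ∀ᶠ ε in 𝓝[>] (0 : ℝ), F ε ≤ G ε := by
    have hmem : Ioo (0 : ℝ) (1 / 4) ∈ 𝓝[>] (0 : ℝ) := Ioo_mem_nhdsGT (by norm_num)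
    filter_upwards [hmem] with ε hε
    exact limit_ineq h0 h2 hc hY hw hε.1 hε.2
  have hfin := le_of_tendsto_of_tendsto hF0 hG0 hle
  have e1 : F 0 = (4 * Real.pi) ^ (s / 2) * c := by
    simp [hF]
  have e2 : G 0 = AS s w a b y := by
    simp only [hG, AS, bk, sub_zero, Real.one_rpow, one_mul]
    rw [hX]
    ring
  rw [e1, e2] at hfin
  exact hfin

end Pool.Agent.Helper33.RZ2
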